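import Mathlib
import Pool.Agent.L5helper51.CCGroup

/-!
# A countably compact group whose square is not countably compact

We construct, without any hypothesis beyond the usual axioms, a countably compact Tikhonov
topological group `G` such that `G × G` is not countably compact.

Outline. Let `k` be the field with four elements and `V` the vector space over `k` whose basis is
the set of formal limits: the initial basis vectors `e 0, e 1, …` and, for every sequence `f` of
vectors, formal limits of it (this is an inductive definition, and there are continuum many formal
limits). Every formal limit `b` gets an ultrafilter `p b` on the natural numbers, taken along a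
member of an almost disjoint family, such that the sets that miss only few points of almost all
blocks of `p b` are in `p b`. Let `X` be the set of all linear functionals `Φ` from `V` to `k` with
`Φ b = p b`-limit of `Φ (f n)` for all formal limits `b` of linearly independent sequences `f`. The
greedy selection of linearly independent vectors block by block and a removal of finitely many
points shows that `X` separates the points of `V`, and the values at the vectors `e n` can be
prescribed. Let `G` be the additive group of all vectors whose coefficients at formal limits of
sequences are in the prime field, with the topology of pointwise convergence on `X`. Every infinite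
subset of `G` contains a linearly independent sequence and this has an accumulation point in `G`,
so `G` is countably compact. If `ω` is an element of `k` outside of the prime field then the
sequence `(e n, ω e n)` has no accumulation point in `G × G`: if `(x, y)` is one then `y = ω x`, as
`X` separates points, hence all coefficients of `x` at formal limits of sequences are zero, and
some `Φ` in `X` is zero at `x` and one at almost all `e n`.
-/

namespace Pool.Agent.Results.MP_672973_lc.NonCompactSquare

open Pool.Agent.L5helper51.CCG

/-- **There is a countably compact topological group whose square is not countably compact.**
The group is commutative and is written additively. -/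
theorem result :
    ∃ (G : Type) (_ : AddCommGroup G) (_ : TopologicalSpace G),
      IsTopologicalAddGroup G ∧ T35Space G ∧ CountablyCompactSpace G ∧
        ¬ CountablyCompactSpace (G × G) := by
  classical
  let k : Type := GaloisField 2 2
  have hfin : Finite k := by
    refine Nat.finite_of_card_ne_zero ?_
    have h := GaloisField.card 2 2 two_ne_zero
    change Nat.card (GaloisField 2 2) ≠ 0
    rw [h]
    norm_num
  have hcard : Nat.card k = 4 := by
    have h := GaloisField.card 2 2 two_ne_zero
    change Nat.card (GaloisField 2 2) = 4
    rw [h]
    norm_num
  let φ : ZMod 2 →+* k := algebraMap (ZMod 2) (GaloisField 2 2)
  let k₀ : AddSubgroup k := φ.toAddMonoidHom.range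
  have h1 : (1 : k) ∈ k₀ := ⟨1, map_one φ⟩
  obtain ⟨ω, hω⟩ : ∃ ω : k, ω ∉ k₀ := by
    by_contra hcon
    push Not at hcon
    have hsurj : Function.Surjective φ := fun c => hcon c
    have h2 := Nat.card_le_card_of_surjective φ hsurj
    rw [hcard, Nat.card_eq_fintype_card, ZMod.card] at h2
    omega
  have hω2 : ∀ c ∈ k₀, ω * c ∈ k₀ → c = 0 := by
    rintro _ ⟨z, rfl⟩ hz
    have hcase : z = 0 ∨ z = 1 := (by decide : ∀ z : ZMod 2, z = 0 ∨ z = 1) z
    rcases hcase with rfl | rfl
    · exact map_zero φ
    · exfalso
      apply hω
      have h3 : φ.toAddMonoidHom (1 : ZMod 2) = 1 := map_one φ
      rw [h3, mul_one] at hz
      exact hz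
  exact ⟨Hgrp k₀, inferInstance, topH k₀, isTopologicalAddGroup_topH k₀, t35_topH k₀,
    countablyCompact_topH k₀ h1, not_countablyCompact_prod k₀ ω hω2⟩

end Pool.Agent.Results.MP_672973_lc.NonCompactSquare
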